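import Pool.Agent.Lib_helper82.BR.Statement

/-! # Surfaces with ample canonical bundle (MP_45e720_ag): the definition for the statement -/

set_option autoImplicit false

open scoped Manifold ContDiff Bundle

namespace Pool.Agent.GG

open Pool.Agent.BrodyRigid

section

variable (E X : Type) [NormedAddCommGroup E] [NormedSpace ℂ E] [TopologicalSpace X]
  [ChartedSpace E X] [IsManifold 𝓘(ℂ, E) ω X]

/-- The `k`-th power of the canonical bundle of the surface `X` is very ample for some `k > 0`:
`X` has dimension two and there are sections of the `k`-th power of the canonical bundle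
(pluricanonical forms) without common zeros which define an immersion of `X` into a projective
space (see `BrodyRigid.CanonicalAmple`) which is injective (the last condition). This is the
definition of `the canonical bundle of X is ample`. -/
def CanonicalVeryAmple : Prop :=
  Module.finrank ℂ E = 2 ∧
  ∃ (k L : ℕ) (τ : Fin L → TangentPairs E X → ℂ), 0 < k ∧ (∀ i, IsPlaneForm E X k (τ i)) ∧
    (∀ (x : X) (u v : E), LinearIndependent ℂ ![u, v] →
      (∃ i, τ i (pair x u v) ≠ 0) ∧
      ∀ (ξ' u' v' : E) (m : ℂ),
        (∀ i, pairDeriv (τ i) x u v ξ' u' v' = m * τ i (pair x u v)) → ξ' = 0) ∧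
    ∀ (x y : X) (u v u' v' : E) (c : ℂ), LinearIndependent ℂ ![u, v] →
      LinearIndependent ℂ ![u', v'] →
      (∀ i, τ i (pair x u v) = c * τ i (pair y u' v')) → x = y

variable {E X}

theorem CanonicalVeryAmple.canonicalAmple (h : CanonicalVeryAmple E X) : CanonicalAmple E X := by
  obtain ⟨h2, k, L, τ, hk, hτ, h1, -⟩ := h
  exact ⟨h2, k, L, τ, hk, hτ, h1⟩

end

end Pool.Agent.GG
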