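import Pool.Agent.Lib_helper82.GG.P.C3
import Pool.Agent.Lib_helper82.GG.P.SEP
import Pool.Agent.Lib_helper82.GG.P.MON
import Pool.Agent.Lib_helper82.GG.P.P4
import Pool.Agent.Lib_helper82.GG.P.Z1
import Pool.Agent.Lib_helper82.GG.P.Z4
import Pool.Agent.Lib_helper82.GG.P.ST2
import Pool.Agent.Lib_helper82.GG.P.GJ
import Pool.Agent.Lib_helper82.GG.P.WH
import Pool.Agent.Lib_helper80.GG.DFinal
import Pool.Agent.Lib_helper5.GG.G

/-! # Existence of invariant jet differentials on surfaces with ample canonical bundle -/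

set_option autoImplicit false
set_option linter.unusedVariables false
set_option linter.unusedSectionVars false

open Filter Topology Metric Set
open scoped Manifold ContDiff

namespace Pool.Agent.GG

open Pool.Agent.BR

section surface

variable {X : Type} [MetricSpace X] [CompactSpace X] {A : Cha V2 X} {b D e : ℕ}
  {T : Fin 3 → A.ι → X → ℂ} {σ S S' : A.ι → X → ℂ}

theorem norm_H (hT : Net A b T) (hD : Shts A T D) : ∃ κ : ℝ, ∀ N : ℤ, ∃ Z : Finset X,
    (∀ x ∈ Z, x ∈ ZS A (T 0) ∧ x ∉ ZS A (dlt A T)) ∧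
    (Z.card : ℝ) ≤ (D : ℝ) / b * max (N : ℝ) 0 + κ ∧
    ∀ F : A.ι → X → ℂ, CSec A (ZS A (T 0)) N F →
      (∀ x ∈ Z, ∀ i, x ∈ (A.ch i).source → F i x = 0) →
      ∀ x ∈ ZS A (T 0), ∀ i, x ∈ (A.ch i).source → F i x = 0 := by
  refine ⟨D, fun N => ?_⟩
  obtain ⟨Z, z1, z2, z3⟩ := pen_norm (pen_H hT) (bz_H hT hD) hT.g4 N
  refine ⟨Z, fun x hx => ⟨(z1 x hx).1, fun h => (z1 x hx).2.2 ⟨(z1 x hx).1, h⟩⟩, z2.trans ?_, z3⟩
  have hb : (0 : ℝ) < b := by exact_mod_cast hT.b_pos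
  have : (max (N : ℝ) 0 / b + 1) * D = (D : ℝ) / b * max (N : ℝ) 0 + D := by
    field_simp
  exact this.le

theorem norm_R (hT : Net A b T) (hD : Shts A T D) : ∃ κ : ℝ, ∀ N : ℤ, ∃ Z : Finset X,
    (∀ x ∈ Z, x ∉ ZS A (T 0) ∧ x ∈ ZS A (dlt A T)) ∧
    (Z.card : ℝ) ≤ (3 * b + 1) * (D : ℝ) / b ^ 2 * max (N : ℝ) 0 + κ ∧
    ∀ F : A.ι → X → ℂ, CSec A (ZS A (dlt A T)) N F →
      (∀ x ∈ Z, ∀ i, x ∈ (A.ch i).source → F i x = 0) →
      ∀ x ∈ ZS A (dlt A T), ∀ i, x ∈ (A.ch i).source → F i x = 0 := by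
  have hb0 := hT.b_pos
  have hb : (0 : ℝ) < b := by exact_mod_cast hb0
  obtain ⟨B, hB⟩ := bz_R hT hD
  have hl : ∀ c ∉ B, (Pf A (dlt A T) (T 0) (T 1) c).ncard ≤ (3 * b + 1) * D / b := fun c hc =>
    (Nat.le_div_iff_mul_le hb0).2 (by rw [mul_comm]; exact hB c hc)
  have hl2 : (((3 * b + 1) * D / b : ℕ) : ℝ) ≤ (3 * b + 1) * D / b := by
    have := @Nat.cast_div_le ℝ _ _ _ ((3 * b + 1) * D) b
    push_cast at this
    exact this
  refine ⟨(3 * b + 1) * D / b, fun N => ?_⟩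
  obtain ⟨Z, z1, z2, z3⟩ := pen_norm (pen_R hT) ⟨B, hl⟩ Set.finite_empty N
  refine ⟨Z, fun x hx => ⟨(z1 x hx).2.1, (z1 x hx).1⟩, z2.trans ?_, z3⟩
  have h1 : (max (N : ℝ) 0 / b + 1) * (((3 * b + 1) * D / b : ℕ) : ℝ) ≤
      (max (N : ℝ) 0 / b + 1) * ((3 * b + 1) * D / b) := by
    gcongr
  refine h1.trans (le_of_eq ?_)
  field_simp

end surface

theorem main_metric {E X : Type} [NormedAddCommGroup E] [NormedSpace ℂ E] [FiniteDimensional ℂ E]
    [MetricSpace X] [CompactSpace X] [ConnectedSpace X] [ChartedSpace E X]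
    [IsManifold 𝓘(ℂ, E) ω X] (h : CanonicalVeryAmple E X) :
    MinBrody.HasInvariantJetDifferential E X := by
  obtain ⟨e, A, hA, b, M, a, ha⟩ := PD.exists_vv_pr h
  obtain ⟨c, hT⟩ := PD.exists_net_pr ha
  obtain ⟨D, hD⟩ := exists_shts_aux hT
  obtain ⟨T₃, h₃⟩ := exists_sep ha hT hD
  obtain ⟨κ₁, h1⟩ := norm_H hT hD
  obtain ⟨κ₂, h2⟩ := norm_R hT hD
  obtain ⟨k, m, hm, hc⟩ := Pool.Agent.Lib_helper5.GG.gg_count_pr b D ha.b_pos hD.pos (max κ₁ κ₂)
  obtain ⟨w, hw, hr⟩ := stages hT hD h₃ (κ := max κ₁ κ₂)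
    (fun N => by
      obtain ⟨Z, z1, z2, z3⟩ := h1 N
      exact ⟨Z, z1, z2.trans (by gcongr; exact le_max_left _ _), z3⟩)
    (fun N => by
      obtain ⟨Z, z1, z2, z3⟩ := h2 N
      exact ⟨Z, z1, z2.trans (by gcongr; exact le_max_right _ _), z3⟩) hm hc
  obtain ⟨P, hP, hne⟩ := exists_gj hT hD h₃ w hw hr
  exact exists_inv e A hA hm P hP hne

/-- **Existence of invariant jet differentials** (Green and Griffiths 1979 for all surfaces of
general type; here an elementary proof for the surfaces with ample canonical bundle). -/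
theorem has_invariant {E X : Type} [NormedAddCommGroup E] [NormedSpace ℂ E]
    [FiniteDimensional ℂ E] [t : TopologicalSpace X] [CompactSpace X] [T2Space X]
    [ConnectedSpace X] [ChartedSpace E X] [IsManifold 𝓘(ℂ, E) ω X] (h : CanonicalVeryAmple E X) :
    MinBrody.HasInvariantJetDifferential E X := by
  have : ProperSpace E := FiniteDimensional.proper ℂ E
  have : SecondCountableTopology X := ChartedSpace.secondCountable_of_sigmaCompact E X
  have : TopologicalSpace.MetrizableSpace X :=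
    TopologicalSpace.metrizableSpace_of_t3_secondCountable X
  obtain ⟨m, hm⟩ : ∃ m : MetricSpace X,
      m.toPseudoMetricSpace.toUniformSpace.toTopologicalSpace = t :=
    ⟨TopologicalSpace.metrizableSpaceMetric X, rfl⟩
  subst hm
  exact main_metric h

end Pool.Agent.GG
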