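import Pool.Agent.Lib_helper80.IS.Defs
import Pool.Agent.Lib_helper58.MBS.Notions
import Pool.Agent.Lib_helper82.GG.Notions

/-! # Existence of invariant jet differentials (MP_45e720_ag): definitions used in the proof

The charts have values in `V2 = ℂ²`. The paper is `GG_Paper_helper82.md`. -/

set_option autoImplicit false

open Filter Topology Metric Set
open scoped Nat

namespace Pool.Agent.GG

open Pool.Agent.BR

/-- the model of a surface -/
abbrev V2 : Type := Fin 2 → ℂ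

/-! ## monomials and polynomials in the jet variables

The variable `(j, l)` stands for the derivative of order `l + 1` of the component `j`. -/

section jets

variable {k : ℕ}

/-- polynomials in the jet variables -/
abbrev JP (k : ℕ) : Type := MvPolynomial (Fin 2 × Fin k) ℂ

/-- the degree of a monomial -/
def dg (t : Fin 2 × Fin k → ℕ) : ℕ := ∑ v, t v

/-- the weight of a monomial -/
def wt (t : Fin 2 × Fin k → ℕ) : ℕ := ∑ v, ((v.2 : ℕ) + 1) * t v

/-- the degree in the jet variables of the component `j` -/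
def nj (j : Fin 2) (t : Fin 2 × Fin k → ℕ) : ℕ := ∑ l, t (j, l)

/-- the polynomial `P` is weighted homogeneous of weight `m` -/
def Wh (m : ℕ) (P : JP k) : Prop := ∀ t, P.coeff t ≠ 0 → wt t = m

/-- the component `j` of the curve `∑ X (j, l) ζ ^ (l + 1) / (l + 1)!` -/
noncomputable def gp (k : ℕ) (j : Fin 2) : Polynomial (JP k) :=
  ∑ l : Fin k, Polynomial.monomial ((l : ℕ) + 1)
    (MvPolynomial.C ((((l : ℕ) + 1)! : ℕ) : ℂ)⁻¹ * MvPolynomial.X (j, l))

/-- the derivative of order `l` at `0` of the product of powers of the components -/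
noncomputable def bp (k : ℕ) (α : ℕ × ℕ) (l : ℕ) : JP k :=
  MvPolynomial.C ((l ! : ℕ) : ℂ) * (gp k 0 ^ α.1 * gp k 1 ^ α.2).coeff l

/-- the derivative of order `l` of a function along a curve; `D α` is the partial derivative of
order `α` of the function (only `1 ≤ α.1 + α.2 ≤ l` contributes) -/
noncomputable def jp (k : ℕ) (D : ℕ × ℕ → ℂ) (l : ℕ) : JP k :=
  ∑ α ∈ (Finset.range (l + 1) ×ˢ Finset.range (l + 1)).filter (fun α => 1 ≤ α.1 + α.2),
    MvPolynomial.C (D α / ((α.1 ! : ℕ) * (α.2 ! : ℕ) : ℂ)) * bp k α l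

/-- the linear substitution -/
noncomputable def Ls (k : ℕ) (M : Matrix (Fin 2) (Fin 2) ℂ) : JP k →ₐ[ℂ] JP k :=
  MvPolynomial.aeval (fun v => ∑ j, MvPolynomial.C (M v.1 j) * MvPolynomial.X (j, v.2))

/-- the part of degree `n` -/
noncomputable def hc (n : ℕ) (P : JP k) : JP k := MvPolynomial.homogeneousComponent n P

/-- `P` has no terms of degree `< n` -/
def Lo (n : ℕ) (P : JP k) : Prop := ∀ t, P.coeff t ≠ 0 → n ≤ dg t

end jets

/-! ## functions of two variables -/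

/-- the partial derivative -/
noncomputable def pd (j : Fin 2) (f : V2 → ℂ) : V2 → ℂ :=
  fun z => fderiv ℂ f z (Pi.single j (1 : ℂ))

/-- the partial derivative of order `α` -/
noncomputable def pdd (α : ℕ × ℕ) (f : V2 → ℂ) : V2 → ℂ := (pd 0)^[α.1] ((pd 1)^[α.2] f)

/-- the action of the map `F` on jets: `Tr k F z P` is the polynomial in the jets of `c` whose value
is the value of `P` on the jets of `F ∘ c`, where `c 0 = z` -/
noncomputable def Tr (k : ℕ) (F : V2 → V2) (z : V2) : JP k →ₐ[ℂ] JP k :=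
  MvPolynomial.aeval (fun v => jp k (fun α => pdd α (fun w => F w v.1) z) ((v.2 : ℕ) + 1))

/-- the jacobian matrix of `F` -/
noncomputable def Jm (F : V2 → V2) (z : V2) : Matrix (Fin 2) (Fin 2) ℂ :=
  Matrix.of fun i j => pd j (fun w => F w i) z

/-- the quotients `T 1 / T 0`, `T 2 / T 0` -/
noncomputable def UU (T : Fin 3 → V2 → ℂ) : V2 → V2 := fun z j => T j.succ z / T 0 z

/-- the jacobian section `δ` of `T 0`, `T 1`, `T 2` -/
noncomputable def dl (T : Fin 3 → V2 → ℂ) (z : V2) : ℂ :=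
  Matrix.det (Matrix.of fun i => ![T i z, pd 0 (T i) z, pd 1 (T i) z])

/-- the points where the quotients are local coordinates -/
def Gd (T : Fin 3 → V2 → ℂ) : Set V2 := {z | T 0 z ≠ 0 ∧ dl T z ≠ 0}

/-- `f` is `T 0 ^ r * δ ^ s` times an analytic function near `z₀` -/
def OO (T : Fin 3 → V2 → ℂ) (z₀ : V2) (r s : ℤ) (f : V2 → ℂ) : Prop :=
  ∃ g : V2 → ℂ, AnalyticAt ℂ g z₀ ∧ ∀ᶠ z in 𝓝 z₀, z ∈ Gd T → f z = T 0 z ^ r * dl T z ^ s * g z

/-! ## functions and sections on the surface -/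

section surface

variable {X : Type} [MetricSpace X]

/-- the expression of the function `s` in the chart `i` -/
noncomputable def lz (A : Cha V2 X) (i : A.ι) (s : X → ℂ) : V2 → ℂ := fun z => s ((A.ch i).symm z)

/-- the partial derivative of the section `s` in the chart `i` -/
noncomputable def ds (A : Cha V2 X) (s : A.ι → X → ℂ) (j : Fin 2) (i : A.ι) (x : X) : ℂ :=
  pd j (lz A i (s i)) (A.ch i x)

/-- the sections `T j` in the chart `i` -/
noncomputable def lT (A : Cha V2 X) (T : Fin 3 → A.ι → X → ℂ) (i : A.ι) : Fin 3 → V2 → ℂ :=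
  fun j => lz A i (T j i)

/-- the jacobian section `δ` -/
noncomputable def dlt (A : Cha V2 X) (T : Fin 3 → A.ι → X → ℂ) (i : A.ι) (x : X) : ℂ :=
  dl (lT A T i) (A.ch i x)

/-- the zeros of the section `s` -/
def ZS (A : Cha V2 X) (s : A.ι → X → ℂ) : Set X := {x | ∀ i, x ∈ (A.ch i).source → s i x = 0}

/-- the good set `X'` -/
def GX (A : Cha V2 X) (T : Fin 3 → A.ι → X → ℂ) : Set X := {x | x ∉ ZS A (T 0) ∧ x ∉ ZS A (dlt A T)}

/-- `f` (a function near `x`, off the complement of `G`) extends analytically to `x` -/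
def RegX (A : Cha V2 X) (G : Set X) (f : X → ℂ) (x : X) : Prop :=
  ∃ g : X → ℂ, (∀ i, x ∈ (A.ch i).source → AnalyticAt ℂ (lz A i g) (A.ch i x)) ∧
    ∀ᶠ y in 𝓝 x, y ∈ G → f y = g y

/-- the section `s` of the `w`-th power of the canonical bundle over the set `Y`, holomorphic
along `Y`; `w` may be negative -/
structure CSec (A : Cha V2 X) (Y : Set X) (w : ℤ) (s : A.ι → X → ℂ) : Prop where
  an : ∀ i, ∀ x ∈ (A.ch i).source, x ∈ Y → ∃ g : V2 → ℂ, AnalyticAt ℂ g (A.ch i x) ∧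
    ∀ᶠ y in 𝓝 x, y ∈ Y → s i y = g (A.ch i y)
  tr : ∀ i j x, x ∈ (A.ch i).source → x ∈ (A.ch j).source → x ∈ Y →
    s i x = IS.jac A i j x ^ w * s j x

/-- the choice of the sections `T 0`, `T 1`, `T 2` of the `b`-th power of the canonical bundle -/
structure Net (A : Cha V2 X) (b : ℕ) (T : Fin 3 → A.ι → X → ℂ) : Prop where
  b_pos : 0 < b
  ps : ∀ j, IS.PS A b (T j)
  g1 : ∀ x, ∃ j, x ∉ ZS A (T j)
  g2 : ∀ i, ∀ x ∈ (A.ch i).source, T 0 i x = 0 → ∃ j, ds A (T 0) j i x ≠ 0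
  g3 : ∀ i, ∀ x ∈ (A.ch i).source, dlt A T i x = 0 → ∃ j, ds A (dlt A T) j i x ≠ 0
  g4 : (ZS A (T 0) ∩ ZS A (dlt A T)).Finite
  g4' : ∀ x ∈ ZS A (T 0) ∩ ZS A (dlt A T), x ∉ ZS A (T 1)
  g5 : {x | x ∈ ZS A (dlt A T) ∧ x ∉ ZS A (T 0) ∧ ∀ i, x ∈ (A.ch i).source →
    ds A (dlt A T) 0 i x * (T 0 i x * ds A (T 1) 1 i x - T 1 i x * ds A (T 0) 1 i x) -
    ds A (dlt A T) 1 i x * (T 0 i x * ds A (T 1) 0 i x - T 1 i x * ds A (T 0) 0 i x) = 0}.Finite

/-- the fibre of the map `(T 1 / T 0, T 2 / T 0)` over `y` -/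
def Fib (A : Cha V2 X) (T : Fin 3 → A.ι → X → ℂ) (y : V2) : Set X :=
  {x | x ∉ ZS A (T 0) ∧ ∀ i, x ∈ (A.ch i).source →
    T 1 i x = y 0 * T 0 i x ∧ T 2 i x = y 1 * T 0 i x}

/-- the branch curve -/
def BrC (A : Cha V2 X) (T : Fin 3 → A.ι → X → ℂ) : Set V2 :=
  {y | ∃ x ∈ Fib A T y, x ∈ ZS A (dlt A T)}

/-- `D` is the number of the points of all unramified fibres -/
structure Shts (A : Cha V2 X) (T : Fin 3 → A.ι → X → ℂ) (D : ℕ) : Prop where
  pos : 0 < D
  fin : ∀ y, y ∉ BrC A T → (Fib A T y).Finite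
  card : ∀ y, y ∉ BrC A T → (Fib A T y).ncard = D

/-- `T₃` separates the points of one unramified fibre -/
structure Sep (A : Cha V2 X) (b : ℕ) (T : Fin 3 → A.ι → X → ℂ) (T₃ : A.ι → X → ℂ) : Prop where
  ps : IS.PS A b T₃
  sep : ∃ y, y ∉ BrC A T ∧ ∀ x ∈ Fib A T y, ∀ x' ∈ Fib A T y, ∀ i i', x ∈ (A.ch i).source →
    x' ∈ (A.ch i').source → T₃ i x * T 0 i' x' = T₃ i' x' * T 0 i x → x = x'

/-! ## jet differentials -/

/-- the jet differential with the coefficients `c` in the coordinates `T 1 / T 0`, `T 2 / T 0`, in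
the chart `i` -/
noncomputable def PC (A : Cha V2 X) (T : Fin 3 → A.ι → X → ℂ) {k : ℕ} (c : X → JP k) (i : A.ι)
    (x : X) : JP k :=
  Tr k (UU (lT A T i)) (A.ch i x) (c x)

/-- `P` is a (regular) jet differential of weight `m` -/
structure GJ (A : Cha V2 X) (k m : ℕ) (P : A.ι → X → JP k) : Prop where
  an : ∀ i, ∀ x ∈ (A.ch i).source, ∀ t,
    AnalyticAt ℂ (fun z => (P i ((A.ch i).symm z)).coeff t) (A.ch i x)
  wh : ∀ i, ∀ x ∈ (A.ch i).source, Wh m (P i x)
  tr : ∀ i j x, x ∈ (A.ch i).source → x ∈ (A.ch j).source →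
    P i x = Tr k (fun z => A.ch j ((A.ch i).symm z)) (A.ch i x) (P j x)

/-! ## the space `E'` -/

/-- the exponents of the products `T₃ ^ j * T 0 ^ a₀ * T 1 ^ a₁ * T 2 ^ a₂` of degree `N` with
`j < D` -/
def Idx (D N : ℕ) : Finset (ℕ × ℕ × ℕ × ℕ) :=
  (Finset.range D ×ˢ Finset.range (N + 1) ×ˢ Finset.range (N + 1) ×ˢ Finset.range (N + 1)).filter
    (fun a => a.1 + a.2.1 + a.2.2.1 + a.2.2.2 = N)

/-- the product of the sections with the exponents `a` -/
noncomputable def mo {A : Cha V2 X} (T : Fin 3 → A.ι → X → ℂ) (T₃ : A.ι → X → ℂ) (a : ℕ × ℕ × ℕ × ℕ) (i : A.ι)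
    (x : X) : ℂ :=
  T₃ i x ^ a.1 * T 0 i x ^ a.2.1 * T 1 i x ^ a.2.2.1 * T 2 i x ^ a.2.2.2

/-- the types of weight `m` -/
noncomputable def Ty (k m : ℕ) : Finset (Fin 2 × Fin k →₀ ℕ) :=
  ((Fintype.piFinset fun _ : Fin 2 × Fin k => Finset.range (m + 1)).filter
    (fun t => wt t = m)).map (Finsupp.equivFunOnFinite.symm.toEmbedding)

/-- some chart at `x` -/
noncomputable def ci (A : Cha V2 X) (x : X) : A.ι := (A.cover x).choose

/-- the coefficients of the elements of `E'`, with the parameters `w` -/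
noncomputable def cE (A : Cha V2 X) (b D : ℕ) (T : Fin 3 → A.ι → X → ℂ) (T₃ : A.ι → X → ℂ) (k m : ℕ)
    (w : (Fin 2 × Fin k →₀ ℕ) → (ℕ × ℕ × ℕ × ℕ) → ℂ) (x : X) : JP k :=
  ∑ t ∈ Ty k m, MvPolynomial.monomial t
    ((∑ a ∈ Idx D ((6 * b + 1) * dg t), w t a * mo T T₃ a (ci A x) x) *
      T 0 (ci A x) x ^ dg t / dlt A T (ci A x) x ^ (2 * b * dg t))

end surface

end Pool.Agent.GG
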